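import Pool.Agent.Q214.FA.SU

set_option autoImplicit false

/-!
# The sum over the Farey fractions of one arc (job SA of helper120, helper214)
-/

namespace Pool.Agent.Q214.FA

open MeasureTheory Filter Topology Set Pool.Agent.Q120.FA

lemma w_nonneg (x : ℝ) : 0 ≤ w x := by
  unfold w
  apply div_nonneg _ (sq_nonneg x)
  exact Finset.sum_nonneg fun n _ => Nat.cast_nonneg _

lemma w_le (X x : ℝ) (hx : x ≤ X) : w x ≤ ∑ n ∈ Finset.Icc 1 ⌊X⌋₊, (n.totient : ℝ) := by
  have h0 : 0 ≤ ∑ n ∈ Finset.Icc 1 ⌊X⌋₊, (n.totient : ℝ) := Finset.sum_nonneg fun n _ => Nat.cast_nonneg _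
  unfold w
  rcases lt_or_ge x 1 with h | h
  · rw [Nat.floor_eq_zero.2 h, Finset.Icc_eq_empty (by norm_num), Finset.sum_empty, zero_div]
    exact h0
  · have h1 : ∑ n ∈ Finset.Icc 1 ⌊x⌋₊, (n.totient : ℝ) ≤ ∑ n ∈ Finset.Icc 1 ⌊X⌋₊, (n.totient : ℝ) := by
      apply Finset.sum_le_sum_of_subset_of_nonneg
      · exact Finset.Icc_subset_Icc le_rfl (Nat.floor_le_floor hx)
      · intro n _ _
        exact Nat.cast_nonneg _
    rw [div_le_iff₀ (by positivity)]
    have h2 : (1 : ℝ) ≤ x ^ 2 := one_le_pow₀ h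
    calc ∑ n ∈ Finset.Icc 1 ⌊x⌋₊, (n.totient : ℝ) ≤ ∑ n ∈ Finset.Icc 1 ⌊X⌋₊, (n.totient : ℝ) := h1
      _ = (∑ n ∈ Finset.Icc 1 ⌊X⌋₊, (n.totient : ℝ)) * 1 := (mul_one _).symm
      _ ≤ (∑ n ∈ Finset.Icc 1 ⌊X⌋₊, (n.totient : ℝ)) * x ^ 2 := mul_le_mul_of_nonneg_left h2 h0

lemma w_meas : Measurable w := by
  have h1 : Measurable fun x : ℝ => ∑ n ∈ Finset.Icc 1 ⌊x⌋₊, (n.totient : ℝ) := by
    have h2 : Measurable fun x : ℝ => ⌊x⌋₊ := Nat.measurable_floor
    exact (measurable_from_nat (f := fun k : ℕ => ∑ n ∈ Finset.Icc 1 k, (n.totient : ℝ))).comp h2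
  exact h1.div (measurable_id.pow_const 2)

lemma w_int (a b : ℝ) : IntervalIntegrable w volume a b := by
  have h1 : IntervalIntegrable (fun _ : ℝ => ∑ n ∈ Finset.Icc 1 ⌊max a b⌋₊, (n.totient : ℝ)) volume a b :=
    intervalIntegrable_const
  refine h1.mono_fun w_meas.aestronglyMeasurable ?_
  rw [Filter.EventuallyLE, ae_restrict_iff' measurableSet_uIoc]
  refine Filter.Eventually.of_forall fun x hx => ?_
  have hx' : x ≤ max a b := by
    rw [mem_uIoc] at hx
    rcases hx with h | h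
    · exact h.2.trans (le_max_right _ _)
    · exact h.2.trans (le_max_left _ _)
  rw [Real.norm_eq_abs, abs_of_nonneg (w_nonneg x), Real.norm_eq_abs]
  exact (w_le _ x hx').trans (le_abs_self _)

lemma int_w (a b : ℝ) (ha : 0 ≤ a) (hab : a ≤ b) : ∫ x in a..b, w x = NU b - NU a := by
  apply intervalIntegral.integral_eq_sub_of_hasDeriv_right NU_cont.continuousOn _ (w_int a b)
  intro x hx
  rw [min_eq_left hab, max_eq_right hab] at hx
  have hx0 : 0 < x := lt_of_le_of_lt ha hx.1
  have h1 : HasDerivAt (fun y : ℝ => ∑ n ∈ Finset.Icc 1 ⌊x⌋₊, (n.totient : ℝ) / (n : ℝ) * (1 - (n : ℝ) / y)) (w x) x := by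
    have h2 : w x = ∑ n ∈ Finset.Icc 1 ⌊x⌋₊, (n.totient : ℝ) / (n : ℝ) * (0 - (0 * x - (n : ℝ) * 1) / x ^ 2) := by
      unfold w
      rw [Finset.sum_div]
      apply Finset.sum_congr rfl
      intro n hn
      have hn0 : (0 : ℝ) < n := by exact_mod_cast (Finset.mem_Icc.1 hn).1
      field_simp
      ring
    rw [h2]
    apply HasDerivAt.fun_sum
    intro n _
    apply HasDerivAt.const_mul
    apply HasDerivAt.sub (hasDerivAt_const x (1 : ℝ))
    exact (hasDerivAt_const x (n : ℝ)).div (hasDerivAt_id x) hx0.ne'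
  refine h1.hasDerivWithinAt.congr_of_eventuallyEq ?_ rfl
  have h3 : Ioo x ((⌊x⌋₊ : ℝ) + 1) ∈ 𝓝[>] x := Ioo_mem_nhdsGT (Nat.lt_floor_add_one x)
  filter_upwards [h3] with y hy
  have h4 : ⌊y⌋₊ = ⌊x⌋₊ := by
    rw [Nat.floor_eq_iff (by linarith [hy.1])]
    exact ⟨(Nat.floor_le hx0.le).trans hy.1.le, hy.2⟩
  unfold NU
  rw [h4]

lemma telescoped (L V h : ℕ → ℝ) (e : ℝ) (k : ℕ)
    (H : ∀ i < k, |L (i + 1) - L i - h i * (V (i + 1) - V i)| ≤ e * (V (i + 1) - V i)) :
    |L k - L 0 - ∑ i ∈ Finset.range k, h i * (V (i + 1) - V i)| ≤ e * (V k - V 0) := by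
  rw [← Finset.sum_range_sub, ← Finset.sum_range_sub, ← Finset.sum_sub_distrib, Finset.mul_sum]
  refine (Finset.abs_sum_le_sum_abs _ _).trans (Finset.sum_le_sum fun i hi => ?_)
  exact H i (Finset.mem_range.1 hi)

lemma NU_nonneg (x : ℝ) : 0 ≤ NU x := by
  rcases lt_or_ge x 1 with h | h
  · rw [NU_of_lt_one h]
  · have h1 := int_w 0 x le_rfl (by linarith)
    have h2 : NU 0 = 0 := NU_of_lt_one one_pos
    rw [h2, sub_zero] at h1
    rw [← h1]
    apply intervalIntegral.integral_nonneg (by linarith)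
    intro y _
    exact w_nonneg y

lemma core (p : ℝ) (hp : 1 ≤ p) (q : ℕ) (hq : 1 ≤ q) (X : ℝ) (hX : 0 < X) (xr : ℕ → ℕ × ℕ → ℝ)
    (h1 : ∀ y, 0 ≤ y → y ≤ X → Tendsto (fun N : ℕ =>
      (∑ r ∈ FN N, if 0 < xr N r ∧ xr N r ≤ y then (1 : ℝ) else 0) / (N : ℝ)) atTop (𝓝 (NU y / q)))
    (h2 : ∀ η : ℝ, 0 < η → ∀ᶠ N : ℕ in atTop, ∀ r ∈ FN N, 0 < xr N r → xr N r ≤ X →
      |(|E N (fp r)| / N) - |F (xr N r)| / q| ≤ η) :
    Tendsto (fun N : ℕ => (∑ r ∈ FN N, if 0 < xr N r ∧ xr N r ≤ X then |E N (fp r)| ^ p else 0) / (N : ℝ) ^ (p + 1))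
      atTop (𝓝 (1 / (q : ℝ) ^ (p + 1) * ∫ x in (0 : ℝ)..X, |F x| ^ p * w x)) := by
  have hq0 : (0 : ℝ) < q := by exact_mod_cast hq
  have hp0 : 0 < p := by linarith
  let u : ℝ → ℝ := fun x => |F x| / q
  let h : ℝ → ℝ := fun x => u x ^ p
  have hu0 : ∀ x, 0 ≤ u x := fun x => by
    show 0 ≤ |F x| / q
    positivity
  have huc : Continuous u := F_cont.abs.div_const _
  have hhc : Continuous h := huc.rpow_const fun x => Or.inr hp0.le
  let L : ℕ → ℝ → ℝ := fun N y => (∑ r ∈ FN N, if 0 < xr N r ∧ xr N r ≤ y then (|E N (fp r)| / N) ^ p else 0) / (N : ℝ)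
  let V : ℕ → ℝ → ℝ := fun N y => (∑ r ∈ FN N, if 0 < xr N r ∧ xr N r ≤ y then (1 : ℝ) else 0) / (N : ℝ)
  -- the target
  have htar : 1 / (q : ℝ) ^ (p + 1) * ∫ x in (0 : ℝ)..X, |F x| ^ p * w x = (∫ x in (0 : ℝ)..X, h x * w x) / q := by
    rw [← intervalIntegral.integral_const_mul, ← intervalIntegral.integral_div]
    apply intervalIntegral.integral_congr
    intro x _
    show 1 / (q : ℝ) ^ (p + 1) * (|F x| ^ p * w x) = (|F x| / q) ^ p * w x / q
    rw [Real.div_rpow (abs_nonneg _) hq0.le, Real.rpow_add hq0, Real.rpow_one]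
    field_simp
  rw [htar]
  have hL : ∀ N : ℕ, 1 ≤ N → L N X =
      (∑ r ∈ FN N, if 0 < xr N r ∧ xr N r ≤ X then |E N (fp r)| ^ p else 0) / (N : ℝ) ^ (p + 1) := by
    intro N hN
    have hN0 : (0 : ℝ) < N := by exact_mod_cast hN
    show (∑ r ∈ FN N, if 0 < xr N r ∧ xr N r ≤ X then (|E N (fp r)| / N) ^ p else 0) / (N : ℝ) = _
    rw [Finset.sum_div, Finset.sum_div]
    apply Finset.sum_congr rfl
    intro r _
    split_ifs with hr
    · rw [Real.div_rpow (abs_nonneg _) hN0.le, Real.rpow_add hN0, Real.rpow_one]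
      field_simp
    · simp
  have key : Tendsto (fun N : ℕ => L N X) atTop (𝓝 ((∫ x in (0 : ℝ)..X, h x * w x) / q)) := by
    rw [Metric.tendsto_nhds]
    intro ε hε
    set T : ℝ := NU X / q with hT
    have hT0 : 0 ≤ T := div_nonneg (NU_nonneg X) hq0.le
    set e : ℝ := ε / (2 * T + 3) with he
    have he0 : 0 < e := by positivity
    -- bound of `u`
    obtain ⟨B, hB⟩ := (isCompact_Icc (a := (0 : ℝ)) (b := X)).exists_bound_of_continuousOn huc.continuousOn
    -- uniform continuity of the power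
    obtain ⟨η0, hη0, hη⟩ := Metric.uniformContinuousOn_iff.1
      ((isCompact_Icc (a := (0 : ℝ)) (b := B + 1)).uniformContinuousOn_of_continuous
        (f := fun t : ℝ => t ^ p) (Real.continuous_rpow_const hp0.le).continuousOn) e he0
    set η : ℝ := min (η0 / 4) (1 / 4) with hηd
    have hηp : 0 < η := lt_min (by positivity) (by norm_num)
    have hη1 : η ≤ 1 / 4 := min_le_right _ _
    have hη2 : η ≤ η0 / 4 := min_le_left _ _
    obtain ⟨δ, hδ, hδ2⟩ := Metric.uniformContinuousOn_iff.1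
      (isCompact_Icc.uniformContinuousOn_of_continuous (s := Icc (0 : ℝ) X) huc.continuousOn) η hηp
    obtain ⟨k, hk⟩ := exists_nat_gt (X / δ)
    have hk0 : (0 : ℝ) < k := lt_of_le_of_lt (by positivity) hk
    have hkn : 0 < k := by exact_mod_cast hk0
    let y : ℕ → ℝ := fun i => (i : ℝ) * (X / k)
    have hs : X / k < δ := by
      rw [div_lt_iff₀ hδ] at hk
      rw [div_lt_iff₀ hk0]
      linarith
    have hs0 : 0 < X / k := by positivity
    have hy0 : ∀ i, 0 ≤ y i := fun i => by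
      show 0 ≤ (i : ℝ) * (X / k)
      positivity
    have hyX : ∀ i ≤ k, y i ≤ X := by
      intro i hi
      have hi' : (i : ℝ) ≤ k := by exact_mod_cast hi
      show (i : ℝ) * (X / k) ≤ X
      calc (i : ℝ) * (X / k) ≤ k * (X / k) := mul_le_mul_of_nonneg_right hi' hs0.le
        _ = X := by field_simp
    have hystep : ∀ i, y (i + 1) = y i + X / k := by
      intro i
      show ((i + 1 : ℕ) : ℝ) * (X / k) = (i : ℝ) * (X / k) + X / k
      push_cast
      ring
    have hyk : y k = X := by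
      show (k : ℝ) * (X / k) = X
      field_simp
    have hyz : y 0 = 0 := by
      show ((0 : ℕ) : ℝ) * (X / k) = 0
      simp
    -- closeness of `u` on the parts
    have hclose : ∀ i < k, ∀ x, y i ≤ x → x ≤ y (i + 1) → |u x - u (y i)| < η := by
      intro i hi x hx1 hx2
      have hxX : x ≤ X := hx2.trans (hyX (i + 1) hi)
      have := hδ2 x ⟨(hy0 i).trans hx1, hxX⟩ (y i) ⟨hy0 i, hyX i hi.le⟩ (by
        rw [Real.dist_eq, abs_of_nonneg (by linarith)]
        rw [hystep] at hx2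
        linarith)
      rwa [Real.dist_eq] at this
    have huB : ∀ x, 0 ≤ x → x ≤ X → u x ≤ B := by
      intro x hx1 hx2
      have := hB x ⟨hx1, hx2⟩
      rw [Real.norm_eq_abs, abs_of_nonneg (hu0 x)] at this
      exact this
    have hpow : ∀ i < k, ∀ v : ℝ, 0 ≤ v → |v - u (y i)| ≤ 2 * η → |v ^ p - h (y i)| ≤ e := by
      intro i hi v hv hvu
      have h3 : u (y i) ≤ B := huB _ (hy0 i) (hyX i hi.le)
      have h4 := hη v ⟨hv, by have := (abs_le.1 hvu).2; linarith⟩ (u (y i)) ⟨hu0 _, by linarith⟩ (by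
        rw [Real.dist_eq]
        linarith)
      rw [Real.dist_eq] at h4
      exact h4.le
    -- the integral side
    have hI : |(∫ x in (0 : ℝ)..X, h x * w x) - ∑ i ∈ Finset.range k, h (y i) * (NU (y (i + 1)) - NU (y i))| ≤
        e * NU X := by
      have hint : ∀ a b : ℝ, IntervalIntegrable (fun x => h x * w x) volume a b := fun a b =>
        (w_int a b).continuousOn_mul hhc.continuousOn
      have ht := telescoped (fun i => ∫ x in (0 : ℝ)..(y i), h x * w x) (fun i => NU (y i)) (fun i => h (y i)) e k ?_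
      · rw [hyk, hyz, intervalIntegral.integral_same, NU_of_lt_one (x := 0) one_pos, sub_zero, sub_zero] at ht
        exact ht
      · intro i hi
        have hle : y i ≤ y (i + 1) := by rw [hystep]; linarith
        show |(∫ x in (0 : ℝ)..(y (i + 1)), h x * w x) - (∫ x in (0 : ℝ)..(y i), h x * w x) -
          h (y i) * (NU (y (i + 1)) - NU (y i))| ≤ e * (NU (y (i + 1)) - NU (y i))
        rw [intervalIntegral.integral_interval_sub_left (hint _ _) (hint _ _), ← int_w (y i) (y (i + 1)) (hy0 i) hle,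
          ← intervalIntegral.integral_const_mul, ← intervalIntegral.integral_const_mul,
          ← intervalIntegral.integral_sub (hint _ _) ((w_int _ _).const_mul _)]
        rw [← Real.norm_eq_abs]
        apply intervalIntegral.norm_integral_le_of_norm_le hle _ ((w_int _ _).const_mul _)
        refine Filter.Eventually.of_forall fun x hx => ?_
        rw [Real.norm_eq_abs, ← sub_mul, abs_mul, abs_of_nonneg (w_nonneg x)]
        apply mul_le_mul_of_nonneg_right _ (w_nonneg x)
        have h5 := hclose i hi x hx.1.le hx.2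
        exact hpow i hi (u x) (hu0 x) (by linarith)
    -- the sum side
    have hsum : ∀ᶠ N : ℕ in atTop, |L N X - ∑ i ∈ Finset.range k, h (y i) * (V N (y (i + 1)) - V N (y i))| ≤
        e * V N X := by
      filter_upwards [h2 η hηp, eventually_ge_atTop 1] with N hN hN1
      have hN0 : (0 : ℝ) < N := by exact_mod_cast hN1
      have hz : ∀ g : ℕ × ℕ → ℝ, (∑ r ∈ FN N, if 0 < xr N r ∧ xr N r ≤ 0 then g r else 0) = 0 := by
        intro g
        apply Finset.sum_eq_zero
        intro r _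
        rw [if_neg]
        intro hh
        exact absurd hh.1 (not_lt.2 hh.2)
      have ht := telescoped (fun i => L N (y i)) (fun i => V N (y i)) (fun i => h (y i)) e k ?_
      · have e1 : L N 0 = 0 := by
          show (∑ r ∈ FN N, if 0 < xr N r ∧ xr N r ≤ 0 then (|E N (fp r)| / N) ^ p else 0) / (N : ℝ) = 0
          rw [hz, zero_div]
        have e2 : V N 0 = 0 := by
          show (∑ r ∈ FN N, if 0 < xr N r ∧ xr N r ≤ 0 then (1 : ℝ) else 0) / (N : ℝ) = 0
          rw [hz, zero_div]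
        rw [hyk, hyz, e1, e2, sub_zero, sub_zero] at ht
        exact ht
      · intro i hi
        have hle : y i ≤ y (i + 1) := by rw [hystep]; linarith
        show |(∑ r ∈ FN N, if 0 < xr N r ∧ xr N r ≤ y (i + 1) then (|E N (fp r)| / N) ^ p else 0) / (N : ℝ) -
            (∑ r ∈ FN N, if 0 < xr N r ∧ xr N r ≤ y i then (|E N (fp r)| / N) ^ p else 0) / (N : ℝ) -
            h (y i) * ((∑ r ∈ FN N, if 0 < xr N r ∧ xr N r ≤ y (i + 1) then (1 : ℝ) else 0) / (N : ℝ) -
              (∑ r ∈ FN N, if 0 < xr N r ∧ xr N r ≤ y i then (1 : ℝ) else 0) / (N : ℝ))| ≤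
          e * ((∑ r ∈ FN N, if 0 < xr N r ∧ xr N r ≤ y (i + 1) then (1 : ℝ) else 0) / (N : ℝ) -
              (∑ r ∈ FN N, if 0 < xr N r ∧ xr N r ≤ y i then (1 : ℝ) else 0) / (N : ℝ))
        simp only [← sub_div, ← mul_div_assoc]
        rw [abs_div, abs_of_pos hN0]
        apply div_le_div_of_nonneg_right _ hN0.le
        simp only [← Finset.sum_sub_distrib, Finset.mul_sum]
        refine (Finset.abs_sum_le_sum_abs _ _).trans (Finset.sum_le_sum fun r hr => ?_)
        by_cases c1 : 0 < xr N r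
        · by_cases c2 : xr N r ≤ y i
          · rw [if_pos ⟨c1, c2.trans hle⟩, if_pos ⟨c1, c2⟩, if_pos ⟨c1, c2.trans hle⟩, if_pos ⟨c1, c2⟩]
            simp
          · by_cases c3 : xr N r ≤ y (i + 1)
            · rw [if_pos ⟨c1, c3⟩, if_neg (fun hh => c2 hh.2), if_pos ⟨c1, c3⟩, if_neg (fun hh => c2 hh.2)]
              rw [sub_zero, sub_zero, mul_one, mul_one]
              have h5 := hclose i hi (xr N r) (not_le.1 c2).le c3
              have h6 := hN r hr c1 (c3.trans (hyX (i + 1) hi))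
              apply hpow i hi _ (by positivity)
              have h7 : |E N (fp r)| / N - u (y i) = (|E N (fp r)| / N - |F (xr N r)| / q) + (u (xr N r) - u (y i)) := by
                show _ = (|E N (fp r)| / N - |F (xr N r)| / q) + (|F (xr N r)| / q - u (y i))
                ring
              rw [h7]
              refine (abs_add_le _ _).trans ?_
              linarith
            · rw [if_neg (fun hh => c3 hh.2), if_neg (fun hh => c2 hh.2), if_neg (fun hh => c3 hh.2),
                if_neg (fun hh => c2 hh.2)]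
              simp
        · rw [if_neg (fun hh => c1 hh.1), if_neg (fun hh => c1 hh.1), if_neg (fun hh => c1 hh.1),
                if_neg (fun hh => c1 hh.1)]
          simp
    -- the step sums converge
    have hlimV : ∀ i ≤ k, Tendsto (fun N => V N (y i)) atTop (𝓝 (NU (y i) / q)) := fun i hi =>
      h1 (y i) (hy0 i) (hyX i hi)
    have hstep : Tendsto (fun N : ℕ => ∑ i ∈ Finset.range k, h (y i) * (V N (y (i + 1)) - V N (y i))) atTop
        (𝓝 (∑ i ∈ Finset.range k, h (y i) * (NU (y (i + 1)) / q - NU (y i) / q))) := by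
      apply tendsto_finsetSum
      intro i hi
      rw [Finset.mem_range] at hi
      exact ((hlimV (i + 1) hi).sub (hlimV i hi.le)).const_mul _
    have hstep' : ∀ᶠ N : ℕ in atTop, |(∑ i ∈ Finset.range k, h (y i) * (V N (y (i + 1)) - V N (y i))) -
        ∑ i ∈ Finset.range k, h (y i) * (NU (y (i + 1)) / q - NU (y i) / q)| < e := by
      have := Metric.tendsto_nhds.1 hstep e he0
      simpa [Real.dist_eq] using this
    have hVX : ∀ᶠ N : ℕ in atTop, V N X < T + 1 := by
      have := hlimV k le_rfl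
      rw [hyk] at this
      exact this.eventually (gt_mem_nhds (by rw [← hT]; linarith))
    filter_upwards [hsum, hstep', hVX] with N a1 a2 a3
    have hsq : ∑ i ∈ Finset.range k, h (y i) * (NU (y (i + 1)) / q - NU (y i) / q) =
        (∑ i ∈ Finset.range k, h (y i) * (NU (y (i + 1)) - NU (y i))) / q := by
      rw [Finset.sum_div]
      apply Finset.sum_congr rfl
      intro i _
      ring
    have a4 : |(∫ x in (0 : ℝ)..X, h x * w x) / q -
        ∑ i ∈ Finset.range k, h (y i) * (NU (y (i + 1)) / q - NU (y i) / q)| ≤ e * T := by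
      rw [hsq, ← sub_div, abs_div, abs_of_pos hq0, hT, ← mul_div_assoc]
      exact div_le_div_of_nonneg_right hI hq0.le
    have a5 : e * V N X ≤ e * (T + 1) := mul_le_mul_of_nonneg_left a3.le he0.le
    have a6 : e * (2 * T + 3) = ε := by
      rw [he]
      field_simp
    rw [Real.dist_eq]
    have b1 := abs_le.1 a1
    have b2 := abs_lt.1 a2
    have b4 := abs_le.1 a4
    rw [abs_lt]
    constructor
    · nlinarith [b1.1, b2.1, b4.1, b1.2, b2.2, b4.2]
    · nlinarith [b1.1, b2.1, b4.1, b1.2, b2.2, b4.2]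
  refine key.congr' ?_
  filter_upwards [eventually_ge_atTop 1] with N hN
  exact hL N hN

lemma cnt_sum (N : ℕ) (t : ℝ) : (cnt N t : ℝ) = ∑ r ∈ FN N, if fp r ≤ t then (1 : ℝ) else 0 := by
  classical
  rw [Finset.sum_boole]
  congr 1
  unfold cnt FN fp
  rw [Finset.filter_filter]
  congr 1
  apply Finset.filter_congr
  intro r _
  rw [and_assoc]

lemma fp_mem {N : ℕ} {r : ℕ × ℕ} (hr : r ∈ FN N) : 0 ≤ fp r ∧ fp r ≤ 1 := by
  classical
  unfold FN at hr
  rw [Finset.mem_filter, Finset.mem_product, Finset.mem_Icc, Finset.mem_Icc] at hr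
  unfold fp
  have h1 : (0 : ℝ) < r.2 := by exact_mod_cast hr.1.2.1
  have h2 : (r.1 : ℝ) ≤ r.2 := by exact_mod_cast hr.2.1
  exact ⟨by positivity, (div_le_one h1).2 h2⟩

lemma fp_inj {N : ℕ} {r s : ℕ × ℕ} (hr : r ∈ FN N) (hs : s ∈ FN N) (h : fp r = fp s) : r = s := by
  classical
  unfold FN at hr hs
  rw [Finset.mem_filter, Finset.mem_product, Finset.mem_Icc, Finset.mem_Icc] at hr hs
  unfold fp at h
  have h1 : (0 : ℝ) < r.2 := by exact_mod_cast hr.1.2.1
  have h2 : (0 : ℝ) < s.2 := by exact_mod_cast hs.1.2.1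
  rw [div_eq_div_iff h1.ne' h2.ne'] at h
  have h3 : r.1 * s.2 = s.1 * r.2 := by exact_mod_cast h
  have h4 : r.2 ∣ s.2 := hr.2.2.symm.dvd_of_dvd_mul_left (by rw [h3]; exact dvd_mul_left _ _)
  have h5 : s.2 ∣ r.2 := hs.2.2.symm.dvd_of_dvd_mul_left (by rw [← h3]; exact dvd_mul_left _ _)
  have h6 : r.2 = s.2 := Nat.dvd_antisymm h4 h5
  rw [h6] at h3
  have h7 : r.1 = s.1 := Nat.eq_of_mul_eq_mul_right (by exact_mod_cast h2) h3
  exact Prod.ext h7 h6

lemma single_le (N : ℕ) (t : ℝ) : 0 ≤ (∑ r ∈ FN N, if fp r = t then (1 : ℝ) else 0) ∧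
    (∑ r ∈ FN N, if fp r = t then (1 : ℝ) else 0) ≤ 1 := by
  classical
  rw [Finset.sum_boole]
  refine ⟨Nat.cast_nonneg _, ?_⟩
  have : ((FN N).filter fun r => fp r = t).card ≤ 1 := by
    rw [Finset.card_le_one]
    intro r hr s hs
    rw [Finset.mem_filter] at hr hs
    exact fp_inj hr.1 hs.1 (hr.2.trans hs.2.symm)
  exact_mod_cast this

lemma single_lim (t : ℕ → ℝ) : Tendsto (fun N : ℕ => (∑ r ∈ FN N, if fp r = t N then (1 : ℝ) else 0) / (N : ℝ))
    atTop (𝓝 0) := by
  refine squeeze_zero (g := fun N : ℕ => (1 : ℝ) / (N : ℝ)) (fun N => ?_) (fun N => ?_)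
    tendsto_one_div_atTop_nhds_zero_nat
  · exact div_nonneg (single_le N (t N)).1 (Nat.cast_nonneg N)
  · exact div_le_div_of_nonneg_right (single_le N (t N)).2 (Nat.cast_nonneg N)

lemma prof_pt (q a : ℕ) (hP : Prof q a) (x : ℝ)
    (ht : ∀ᶠ N : ℕ in atTop, 0 ≤ (a : ℝ) / q + x / (q * N) ∧ (a : ℝ) / q + x / (q * N) ≤ 1) :
    Tendsto (fun N : ℕ => E N ((a : ℝ) / q + x / (q * N)) / N) atTop (𝓝 (Fo x / q)) := by
  rw [Metric.tendsto_nhds]
  intro ε hε
  filter_upwards [ht, hP (|x| + 1) (ε / 2) (by positivity) (half_pos hε)] with N h1 h2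
  rw [Real.dist_eq]
  have := h2 x (by linarith) h1.1 h1.2
  linarith

/-- the counting function of an arc -/
lemma cnt_lim (q a : ℕ) (hP : Prof q a) (x : ℝ)
    (ht : ∀ᶠ N : ℕ in atTop, 0 ≤ (a : ℝ) / q + x / (q * N) ∧ (a : ℝ) / q + x / (q * N) ≤ 1)
    (ht0 : ∀ᶠ N : ℕ in atTop, 0 ≤ (a : ℝ) / q + 0 / ((q : ℝ) * (N : ℝ)) ∧
      (a : ℝ) / q + 0 / ((q : ℝ) * (N : ℝ)) ≤ 1) :
    Tendsto (fun N : ℕ => ((cnt N ((a : ℝ) / q + x / (q * N)) : ℝ) - (cnt N ((a : ℝ) / q) : ℝ)) / N) atTop
      (𝓝 ((NU x - NU (-x)) / q)) := by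
  have h1 := prof_pt q a hP x ht
  have h2 := prof_pt q a hP 0 ht0
  have h3 := Pool.Agent.Q124.FA.totient_lim.mul_const (x / q)
  have h4 := (h1.sub h2).add h3
  have h5 : Fo x / q - Fo 0 / q + 3 / Real.pi ^ 2 * (x / q) = (NU x - NU (-x)) / q := by
    rw [Fo_eq x, Fo_eq 0]
    simp only [neg_zero, mul_zero, sub_self]
    ring
  rw [h5] at h4
  refine h4.congr' ?_
  filter_upwards [eventually_ge_atTop 1] with N hN
  have hN0 : (0 : ℝ) < N := by exact_mod_cast hN
  rw [zero_div, add_zero]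
  unfold E
  field_simp
  ring

theorem t_SA : J_SA := by
  intro p hp q a hq haq hco hP X hX
  have hq0 : (0 : ℝ) < q := by exact_mod_cast hq
  have haq' : (a : ℝ) / q ≤ 1 := by
    rw [div_le_one hq0]
    exact_mod_cast haq
  have ha0 : (0 : ℝ) ≤ (a : ℝ) / q := by positivity
  have ht0 : ∀ᶠ N : ℕ in atTop, 0 ≤ (a : ℝ) / q + 0 / ((q : ℝ) * (N : ℝ)) ∧
      (a : ℝ) / q + 0 / ((q : ℝ) * (N : ℝ)) ≤ 1 := by
    refine Filter.Eventually.of_forall fun N => ?_
    rw [zero_div, add_zero]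
    exact ⟨ha0, haq'⟩
  constructor
  · intro ha
    have hd : (0 : ℝ) < 1 - (a : ℝ) / q := by
      rw [sub_pos, div_lt_one hq0]
      exact_mod_cast ha
    have htx : ∀ x, 0 ≤ x → ∀ᶠ N : ℕ in atTop, 0 ≤ (a : ℝ) / q + x / (q * N) ∧ (a : ℝ) / q + x / (q * N) ≤ 1 := by
      intro x hx
      filter_upwards [scaled_small q hq x _ hd] with N hN
      have h1 : 0 ≤ x / ((q : ℝ) * N) := by positivity
      have h2 := (abs_le.1 hN).2
      constructor <;> linarith
    have hc := core p hp q hq X hX (fun N r => (fp r - (a : ℝ) / q) * (q * N)) ?_ ?_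
    · refine hc.congr' ?_
      filter_upwards [eventually_ge_atTop 1] with N hN
      have hN0 : (0 : ℝ) < N := by exact_mod_cast hN
      have hqN : (0 : ℝ) < q * N := by positivity
      congr 1
      apply Finset.sum_congr rfl
      intro r _
      have e1 : (0 < (fp r - (a : ℝ) / q) * (q * N) ∧ (fp r - (a : ℝ) / q) * (q * N) ≤ X) ↔
          ((a : ℝ) / q < fp r ∧ fp r ≤ (a : ℝ) / q + X / (q * N)) := by
        rw [mul_pos_iff_of_pos_right hqN, sub_pos, ← le_div_iff₀ hqN, sub_le_iff_le_add']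
      simp only [e1]
    · intro y hy _
      have h1 := cnt_lim q a hP y (htx y hy) ht0
      have h2 : NU (-y) = 0 := NU_of_lt_one (by linarith)
      rw [h2, sub_zero] at h1
      refine h1.congr' ?_
      filter_upwards [eventually_ge_atTop 1] with N hN
      have hN0 : (0 : ℝ) < N := by exact_mod_cast hN
      have hqN : (0 : ℝ) < q * N := by positivity
      congr 1
      rw [cnt_sum, cnt_sum, ← Finset.sum_sub_distrib]
      apply Finset.sum_congr rfl
      intro r _
      have e1 : (0 < (fp r - (a : ℝ) / q) * (q * N) ∧ (fp r - (a : ℝ) / q) * (q * N) ≤ y) ↔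
          ((a : ℝ) / q < fp r ∧ fp r ≤ (a : ℝ) / q + y / (q * N)) := by
        rw [mul_pos_iff_of_pos_right hqN, sub_pos, ← le_div_iff₀ hqN, sub_le_iff_le_add']
      simp only [e1]
      have hyN : 0 ≤ y / ((q : ℝ) * N) := by positivity
      by_cases c1 : fp r ≤ (a : ℝ) / q
      · rw [if_pos (by linarith), if_pos c1, if_neg (fun hh => absurd hh.1 (not_lt.2 c1)), sub_self]
      · rw [if_neg c1, sub_zero]
        by_cases c2 : fp r ≤ (a : ℝ) / q + y / (q * N)
        · rw [if_pos c2, if_pos ⟨not_le.1 c1, c2⟩]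
        · rw [if_neg c2, if_neg (fun hh => c2 hh.2)]
    · intro η hη
      filter_upwards [hP X η hX hη, eventually_ge_atTop 1] with N h1 hN r hr hr1 hr2
      have hN0 : (0 : ℝ) < N := by exact_mod_cast hN
      have hqN : (0 : ℝ) < q * N := by positivity
      have e1 : (a : ℝ) / q + ((fp r - (a : ℝ) / q) * (q * N)) / (q * N) = fp r := by
        rw [mul_div_assoc, div_self hqN.ne']
        ring
      have h2 := h1 ((fp r - (a : ℝ) / q) * (q * N)) (by rw [abs_of_pos hr1]; exact hr2)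
        (by rw [e1]; exact (fp_mem hr).1) (by rw [e1]; exact (fp_mem hr).2)
      rw [e1, Fo_pos hr1] at h2
      have h3 := abs_abs_sub_abs_le_abs_sub (E N (fp r) / N) (F ((fp r - (a : ℝ) / q) * (q * N)) / q)
      rw [abs_div, abs_div, abs_of_pos hN0, abs_of_pos hq0] at h3
      exact h3.trans h2
  · intro ha
    have hd : (0 : ℝ) < (a : ℝ) / q := by
      have : (0 : ℝ) < a := by exact_mod_cast ha
      positivity
    have htx : ∀ x, x ≤ 0 → ∀ᶠ N : ℕ in atTop, 0 ≤ (a : ℝ) / q + x / (q * N) ∧ (a : ℝ) / q + x / (q * N) ≤ 1 := by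
      intro x hx
      filter_upwards [scaled_small q hq x _ hd] with N hN
      have h1 : x / ((q : ℝ) * N) ≤ 0 := div_nonpos_of_nonpos_of_nonneg hx (by positivity)
      have h2 := (abs_le.1 hN).1
      constructor <;> linarith
    have hiff : ∀ (N : ℕ), 1 ≤ N → ∀ (y f : ℝ), (0 < ((a : ℝ) / q - f) * (q * N) ∧ ((a : ℝ) / q - f) * (q * N) ≤ y) ↔
          ((a : ℝ) / q - y / (q * N) ≤ f ∧ f < (a : ℝ) / q) := by
      intro N hN y f
      have hN0 : (0 : ℝ) < N := by exact_mod_cast hN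
      have hqN : (0 : ℝ) < q * N := by positivity
      rw [mul_pos_iff_of_pos_right hqN, sub_pos, ← le_div_iff₀ hqN]
      constructor
      · rintro ⟨h1, h2⟩
        exact ⟨by linarith, h1⟩
      · rintro ⟨h1, h2⟩
        exact ⟨h2, by linarith⟩
    have hc := core p hp q hq X hX (fun N r => ((a : ℝ) / q - fp r) * (q * N)) ?_ ?_
    · refine hc.congr' ?_
      filter_upwards [eventually_ge_atTop 1] with N hN
      congr 1
      apply Finset.sum_congr rfl
      intro r _
      simp only [hiff N hN X (fp r)]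
    · intro y hy _
      have h1 := cnt_lim q a hP (-y) (htx (-y) (by linarith)) ht0
      have h2 : NU (-y) = 0 := NU_of_lt_one (by linarith)
      rw [h2, neg_neg, zero_sub] at h1
      have h3 := single_lim fun N => (a : ℝ) / q
      have h4 := single_lim fun N => (a : ℝ) / q + -y / (q * N)
      have h5 := (h1.neg.sub h3).add h4
      have h6 : -(-NU y / (q : ℝ)) - 0 + 0 = NU y / q := by ring
      rw [h6] at h5
      refine h5.congr' ?_
      filter_upwards [eventually_ge_atTop 1] with N hN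
      have hN0 : (0 : ℝ) < N := by exact_mod_cast hN
      have hqN : (0 : ℝ) < q * N := by positivity
      rw [← neg_div, ← sub_div, ← add_div]
      congr 1
      rw [cnt_sum, cnt_sum, neg_sub, ← Finset.sum_sub_distrib, ← Finset.sum_sub_distrib, ← Finset.sum_add_distrib]
      apply Finset.sum_congr rfl
      intro r _
      simp only [hiff N hN y (fp r)]
      have hyN : 0 ≤ y / ((q : ℝ) * N) := by positivity
      have e2 : (a : ℝ) / q + -y / (q * N) = (a : ℝ) / q - y / (q * N) := by ring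
      rw [e2]
      rcases lt_trichotomy (fp r) ((a : ℝ) / q) with c1 | c1 | c1
      · rw [if_pos c1.le, if_neg c1.ne]
        rcases lt_trichotomy (fp r) ((a : ℝ) / q - y / (q * N)) with c2 | c2 | c2
        · rw [if_pos c2.le, if_neg c2.ne, if_neg (fun hh => absurd hh.1 (not_le.2 c2))]
          ring
        · rw [if_pos c2.le, if_pos c2, if_pos ⟨c2.ge, c1⟩]
          ring
        · rw [if_neg (not_le.2 c2), if_neg c2.ne', if_pos ⟨c2.le, c1⟩]
          ring
      · have c0 : ¬ ((a : ℝ) / q - y / (q * N) ≤ fp r ∧ fp r < (a : ℝ) / q) := fun hh =>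
          absurd hh.2 (not_lt.2 c1.ge)
        rw [if_neg c0, if_pos c1.le, if_pos c1]
        rcases hyN.eq_or_lt with c3 | c3
        · rw [← c3, sub_zero, if_pos c1.le, if_pos c1]
          ring
        · have c4 : ¬ fp r ≤ (a : ℝ) / q - y / (q * N) := by
            intro hh
            linarith
          have c5 : ¬ fp r = (a : ℝ) / q - y / (q * N) := fun hh => c4 hh.le
          rw [if_neg c4, if_neg c5]
          ring
      · rw [if_neg (not_le.2 c1), if_neg c1.ne', if_neg (by intro hh; linarith), if_neg (by intro hh; linarith),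
          if_neg (fun hh => absurd hh.2 (not_lt.2 c1.le))]
        ring
    · intro η hη
      filter_upwards [hP X η hX hη, eventually_ge_atTop 1] with N h1 hN r hr hr1 hr2
      have hN0 : (0 : ℝ) < N := by exact_mod_cast hN
      have hqN : (0 : ℝ) < q * N := by positivity
      have e1 : (a : ℝ) / q + -(((a : ℝ) / q - fp r) * (q * N)) / (q * N) = fp r := by
        rw [neg_div, mul_div_assoc, div_self hqN.ne']
        ring
      have h2 := h1 (-(((a : ℝ) / q - fp r) * (q * N))) (by rw [abs_neg, abs_of_pos hr1]; exact hr2)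
        (by rw [e1]; exact (fp_mem hr).1) (by rw [e1]; exact (fp_mem hr).2)
      rw [e1] at h2
      have h3 := abs_abs_sub_abs_le_abs_sub (E N (fp r) / N) (Fo (-(((a : ℝ) / q - fp r) * (q * N))) / q)
      rw [abs_div, abs_div, abs_of_pos hN0, abs_of_pos hq0, abs_Fo_neg hr1] at h3
      exact h3.trans h2

end Pool.Agent.Q214.FA
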