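import Pool.Agent.Q120.FA.Stm3

set_option autoImplicit false

/-!
# The function `ν(x) = ∑_{n ≤ x} (φ(n)/n)(1 - n/x)` (project FA of helper120, jobs SU and SA, helper214)
-/

namespace Pool.Agent.Q214.FA

open MeasureTheory Filter Topology Set Pool.Agent.Q120.FA

/-- `ν(x) = ∑_{n ≤ x} (φ(n)/n)(1 - n/x)` -/
noncomputable def NU (x : ℝ) : ℝ :=
  ∑ n ∈ Finset.Icc 1 ⌊x⌋₊, (n.totient : ℝ) / (n : ℝ) * (1 - (n : ℝ) / x)

lemma NU_eq (M : ℕ) (x : ℝ) (hx : x ≤ M) :
    NU x = ∑ n ∈ Finset.Icc 1 M, (n.totient : ℝ) / (n : ℝ) * max 0 (1 - (n : ℝ) / max x 1) := by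
  unfold NU
  rcases lt_or_ge x 1 with h | h
  · have h0 : ⌊x⌋₊ = 0 := Nat.floor_eq_zero.2 h
    rw [h0, Finset.Icc_eq_empty (by norm_num), Finset.sum_empty]
    symm
    apply Finset.sum_eq_zero
    intro n hn
    have h1 : (1 : ℝ) ≤ n := by exact_mod_cast (Finset.mem_Icc.1 hn).1
    rw [max_eq_right h.le, max_eq_left (by rw [div_one]; linarith), mul_zero]
  · rw [max_eq_left h]
    have hx0 : (0 : ℝ) < x := by linarith
    have hsub : Finset.Icc 1 ⌊x⌋₊ ⊆ Finset.Icc 1 M := by
      apply Finset.Icc_subset_Icc le_rfl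
      have := Nat.floor_le_floor hx
      rwa [Nat.floor_natCast] at this
    rw [← Finset.sum_subset hsub]
    · apply Finset.sum_congr rfl
      intro n hn
      have h2 : (n : ℝ) ≤ x := (Nat.le_floor_iff hx0.le).1 (Finset.mem_Icc.1 hn).2
      rw [max_eq_right]
      rw [sub_nonneg, div_le_one hx0]
      exact h2
    · intro n hn hn2
      have h3 : x < n := by
        rw [Finset.mem_Icc] at hn hn2
        have h4 : ¬ n ≤ ⌊x⌋₊ := fun h4 => hn2 ⟨hn.1, h4⟩
        rw [Nat.le_floor_iff hx0.le] at h4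
        exact not_le.1 h4
      rw [max_eq_left, mul_zero]
      rw [sub_nonpos, one_le_div hx0]
      exact h3.le

lemma NU_cont : Continuous NU := by
  rw [continuous_iff_continuousAt]
  intro x
  obtain ⟨M, hM⟩ := exists_nat_gt x
  have h1 : Continuous fun y : ℝ =>
      ∑ n ∈ Finset.Icc 1 M, (n.totient : ℝ) / (n : ℝ) * max 0 (1 - (n : ℝ) / max y 1) := by
    apply continuous_finsetSum
    intro n _
    apply Continuous.mul continuous_const
    apply Continuous.max continuous_const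
    apply Continuous.sub continuous_const
    apply Continuous.div continuous_const (continuous_id.max continuous_const)
    intro y
    have : (1 : ℝ) ≤ max (id y) 1 := le_max_right _ _
    intro h
    rw [h] at this
    linarith
  refine h1.continuousAt.congr ?_
  filter_upwards [Iio_mem_nhds hM] with y hy
  exact (NU_eq M y (le_of_lt hy)).symm

lemma NU_of_lt_one {x : ℝ} (h : x < 1) : NU x = 0 := by
  unfold NU
  have h0 : ⌊x⌋₊ = 0 := Nat.floor_eq_zero.2 h
  rw [h0, Finset.Icc_eq_empty (by norm_num), Finset.sum_empty]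

lemma F_eq (x : ℝ) : F x = NU x - 3 / Real.pi ^ 2 * x := rfl

lemma F_cont : Continuous F := by
  have : F = fun x => NU x - 3 / Real.pi ^ 2 * x := by
    funext x
    exact F_eq x
  rw [this]
  exact NU_cont.sub (continuous_const.mul continuous_id)

lemma Fo_eq (x : ℝ) : Fo x = NU x - NU (-x) - 3 / Real.pi ^ 2 * x := by
  unfold Fo
  rcases lt_trichotomy 0 x with h | h | h
  · rw [if_pos h, F_eq, NU_of_lt_one (x := -x) (by linarith)]
    ring
  · rw [← h]
    simp
  · rw [if_neg (not_lt.2 h.le), if_pos h, F_eq, NU_of_lt_one (x := x) (by linarith)]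
    ring

lemma Fo_cont : Continuous Fo := by
  have : Fo = fun x => NU x - NU (-x) - 3 / Real.pi ^ 2 * x := by
    funext x
    exact Fo_eq x
  rw [this]
  exact (NU_cont.sub (NU_cont.comp continuous_neg)).sub (continuous_const.mul continuous_id)

lemma abs_Fo_neg {x : ℝ} (hx : 0 < x) : |Fo (-x)| = |F x| := by
  unfold Fo
  rw [if_neg (by linarith), if_pos (by linarith), neg_neg, abs_neg]

lemma Fo_pos {x : ℝ} (hx : 0 < x) : Fo x = F x := by
  unfold Fo
  rw [if_pos hx]

/-- pointwise convergence of monotone functions to a continuous function is uniform on compact intervals (Pólya) -/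
lemma polya (f : ℕ → ℝ → ℝ) (F0 : ℝ → ℝ) (α β : ℝ) (hm : ∀ N, Monotone (f N)) (hc : Continuous F0)
    (hl : ∀ x, α ≤ x → x ≤ β → Tendsto (fun N => f N x) atTop (𝓝 (F0 x))) (ε : ℝ) (hε : 0 < ε) :
    ∀ᶠ N : ℕ in atTop, ∀ x, α ≤ x → x ≤ β → |f N x - F0 x| ≤ ε := by
  rcases lt_or_ge β α with hαβ | hαβ
  · refine Filter.Eventually.of_forall fun N x h1 h2 => ?_
    exact absurd (h1.trans h2) (not_le.2 hαβ)
  obtain ⟨δ, hδ, hδ2⟩ := Metric.uniformContinuousOn_iff.1
    (isCompact_Icc.uniformContinuousOn_of_continuous (s := Icc α β) hc.continuousOn) (ε / 2) (half_pos hε)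
  set s : ℝ := δ / 2 with hs
  have hs0 : 0 < s := half_pos hδ
  set k : ℕ := ⌈(β - α) / s⌉₊ with hk
  let y : ℕ → ℝ := fun i => min (α + i * s) β
  have hy : ∀ i, α ≤ y i ∧ y i ≤ β := by
    intro i
    refine ⟨le_min ?_ hαβ, min_le_right _ _⟩
    have : (0 : ℝ) ≤ i * s := by positivity
    linarith
  have hev : ∀ᶠ N : ℕ in atTop, ∀ i ∈ Finset.range (k + 2), |f N (y i) - F0 (y i)| < ε / 2 := by
    rw [Finset.eventually_all]
    intro i _
    have := Metric.tendsto_nhds.1 (hl (y i) (hy i).1 (hy i).2) (ε / 2) (half_pos hε)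
    simpa [Real.dist_eq] using this
  filter_upwards [hev] with N hN x hx1 hx2
  set i : ℕ := ⌊(x - α) / s⌋₊ with hi
  have hx0 : 0 ≤ (x - α) / s := div_nonneg (by linarith) hs0.le
  have h1 : (i : ℝ) ≤ (x - α) / s := Nat.floor_le hx0
  have h2 : (x - α) / s < i + 1 := Nat.lt_floor_add_one _
  rw [le_div_iff₀ hs0] at h1
  rw [div_lt_iff₀ hs0] at h2
  have hik : i ≤ k := by
    rw [hi, hk]
    refine (Nat.floor_le_floor (div_le_div_of_nonneg_right (by linarith : x - α ≤ β - α) hs0.le)).trans ?_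
    exact Nat.floor_le_ceil _
  have hyi : y i ≤ x := (min_le_left _ _).trans (by linarith)
  have hyi1 : x ≤ y (i + 1) := by
    refine le_min ?_ hx2
    push_cast
    linarith
  have hd1 : |F0 (y i) - F0 x| < ε / 2 := by
    have := hδ2 (y i) (hy i) x ⟨hx1, hx2⟩ (by
      rw [Real.dist_eq, abs_sub_comm, abs_of_nonneg (by linarith)]
      have h3 : α + i * s ≤ β := by linarith
      have h4 : y i = α + i * s := min_eq_left h3
      rw [h4]
      linarith)
    rwa [Real.dist_eq] at this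
  have hd2 : |F0 (y (i + 1)) - F0 x| < ε / 2 := by
    have := hδ2 (y (i + 1)) (hy (i + 1)) x ⟨hx1, hx2⟩ (by
      rw [Real.dist_eq, abs_of_nonneg (by linarith)]
      have h4 : y (i + 1) ≤ α + ((i + 1 : ℕ) : ℝ) * s := min_le_left _ _
      push_cast at h4
      linarith)
    rwa [Real.dist_eq] at this
  have h3 := hN i (Finset.mem_range.2 (by omega))
  have h4 := hN (i + 1) (Finset.mem_range.2 (by omega))
  have h5 := hm N hyi
  have h6 := hm N hyi1
  rw [abs_lt] at hd1 hd2 h3 h4
  rw [abs_le]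
  constructor <;> linarith

lemma cnt_mono (N : ℕ) : Monotone (fun t => (cnt N t : ℝ)) := by
  classical
  intro s t hst
  have : cnt N s ≤ cnt N t := by
    unfold cnt
    apply Finset.card_le_card
    intro q hq
    rw [Finset.mem_filter] at hq ⊢
    exact ⟨hq.1, hq.2.1, hq.2.2.1, hq.2.2.2.trans hst⟩
  show (cnt N s : ℝ) ≤ (cnt N t : ℝ)
  exact_mod_cast this

end Pool.Agent.Q214.FA
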