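import Pool.Agent.Q214.FA.Nu
import Pool.Agent.Q65.FA.MA
import Pool.Agent.Q224.FA.PF
import Pool.Agent.Q277.FA.ID
import Pool.Agent.Q124.FA.ZR

set_option autoImplicit false

/-!
# The uniform profile of the Farey discrepancy at every rational number (job SU of helper120, helper214)
-/

namespace Pool.Agent.Q214.FA

open MeasureTheory Filter Topology Set Pool.Agent.Q120.FA

lemma sum_rpow_neg (θ : ℝ) (h0 : 0 ≤ θ) (h1 : θ < 1) (D : ℕ) :
    ∑ d ∈ Finset.Icc 1 D, (d : ℝ) ^ (-θ) ≤ (D : ℝ) ^ (1 - θ) / (1 - θ) := by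
  have h2 : 0 < 1 - θ := by linarith
  induction D with
  | zero =>
    rw [Finset.Icc_eq_empty (by norm_num), Finset.sum_empty]
    positivity
  | succ D ih =>
    rw [Finset.sum_Icc_succ_top (by omega)]
    have hD : (0 : ℝ) < ((D + 1 : ℕ) : ℝ) := by positivity
    have h3 : (D : ℝ) = ((D + 1 : ℕ) : ℝ) * (1 + -(1 / ((D + 1 : ℕ) : ℝ))) := by
      field_simp
      push_cast
      ring
    have h4 : (-1 : ℝ) ≤ -(1 / ((D + 1 : ℕ) : ℝ)) := by
      rw [neg_le_neg_iff, div_le_one hD]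
      push_cast
      have : (0 : ℝ) ≤ D := Nat.cast_nonneg D
      linarith
    have h5 : (1 + -(1 / ((D + 1 : ℕ) : ℝ))) ^ (1 - θ) ≤ 1 + (1 - θ) * -(1 / ((D + 1 : ℕ) : ℝ)) :=
      rpow_one_add_le_one_add_mul_self h4 h2.le (by linarith)
    have h6 : (D : ℝ) ^ (1 - θ) ≤ ((D + 1 : ℕ) : ℝ) ^ (1 - θ) - (1 - θ) * ((D + 1 : ℕ) : ℝ) ^ (-θ) := by
      rw [h3, Real.mul_rpow hD.le (by linarith)]
      refine (mul_le_mul_of_nonneg_left h5 (by positivity)).trans (le_of_eq ?_)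
      have h7 : ((D + 1 : ℕ) : ℝ) ^ (1 - θ) = ((D + 1 : ℕ) : ℝ) * ((D + 1 : ℕ) : ℝ) ^ (-θ) := by
        rw [show (1 - θ) = 1 + (-θ) by ring, Real.rpow_add hD, Real.rpow_one]
      rw [h7]
      field_simp
      ring
    have h8 : ((D + 1 : ℕ) : ℝ) ^ (-θ) ≤ (((D + 1 : ℕ) : ℝ) ^ (1 - θ) - (D : ℝ) ^ (1 - θ)) / (1 - θ) := by
      rw [le_div_iff₀ h2]
      linarith
    calc ∑ d ∈ Finset.Icc 1 D, (d : ℝ) ^ (-θ) + ((D + 1 : ℕ) : ℝ) ^ (-θ)
        ≤ (D : ℝ) ^ (1 - θ) / (1 - θ) + (((D + 1 : ℕ) : ℝ) ^ (1 - θ) - (D : ℝ) ^ (1 - θ)) / (1 - θ) :=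
          add_le_add ih h8
      _ = ((D + 1 : ℕ) : ℝ) ^ (1 - θ) / (1 - θ) := by ring

lemma abs_ps_le (y : ℝ) : |ps y| ≤ 1 / 2 := by
  unfold ps
  rw [abs_le]
  have h1 := Int.fract_nonneg y
  have h2 := (Int.fract_lt_one y).le
  constructor <;> linarith

lemma R_bound (c0 θ : ℝ) (h0 : 0 ≤ θ) (h1 : θ < 1) (hM : ∀ k : ℕ, 1 ≤ k → |Mt k| ≤ c0 * (k : ℝ) ^ θ)
    (N K : ℕ) (hN : 1 ≤ N) (hK : 1 ≤ K) (t : ℝ) :
    |∑ d ∈ Finset.Icc 1 (N / K), Mt (N / d) * ps ((d : ℝ) * t)| ≤ c0 / (1 - θ) * (K : ℝ) ^ (-(1 - θ)) * N := by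
  have h2 : 0 < 1 - θ := by linarith
  have hc0 : 0 ≤ c0 := by
    have := (abs_nonneg _).trans (hM 1 le_rfl)
    simpa using this
  have hN0 : (0 : ℝ) < N := by exact_mod_cast hN
  have hK0 : (0 : ℝ) < K := by exact_mod_cast hK
  have h3 : ∀ d ∈ Finset.Icc 1 (N / K), |Mt (N / d) * ps ((d : ℝ) * t)| ≤ c0 * (N : ℝ) ^ θ * (d : ℝ) ^ (-θ) := by
    intro d hd
    rw [Finset.mem_Icc] at hd
    have hd0 : (0 : ℝ) < d := by exact_mod_cast hd.1
    have hdN : d ≤ N := hd.2.trans (Nat.div_le_self _ _)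
    have h4 : 1 ≤ N / d := (Nat.one_le_div_iff hd.1).2 hdN
    have h5 := hM (N / d) h4
    have h6 : ((N / d : ℕ) : ℝ) ^ θ ≤ (N : ℝ) ^ θ * (d : ℝ) ^ (-θ) := by
      have h7 : ((N / d : ℕ) : ℝ) ≤ (N : ℝ) / d := Nat.cast_div_le
      refine (Real.rpow_le_rpow (Nat.cast_nonneg _) h7 h0).trans (le_of_eq ?_)
      rw [Real.div_rpow hN0.le hd0.le, Real.rpow_neg hd0.le]
      rfl
    rw [abs_mul]
    have h8 := abs_ps_le ((d : ℝ) * t)
    calc |Mt (N / d)| * |ps ((d : ℝ) * t)| ≤ (c0 * ((N / d : ℕ) : ℝ) ^ θ) * 1 := by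
          apply mul_le_mul h5 (by linarith) (abs_nonneg _)
          positivity
      _ ≤ (c0 * ((N : ℝ) ^ θ * (d : ℝ) ^ (-θ))) * 1 := by
          rw [mul_one, mul_one]
          exact mul_le_mul_of_nonneg_left h6 hc0
      _ = c0 * (N : ℝ) ^ θ * (d : ℝ) ^ (-θ) := by ring
  refine (Finset.abs_sum_le_sum_abs _ _).trans ((Finset.sum_le_sum h3).trans ?_)
  rw [← Finset.mul_sum]
  have h9 := sum_rpow_neg θ h0 h1 (N / K)
  have h10 : ((N / K : ℕ) : ℝ) ^ (1 - θ) ≤ (N : ℝ) ^ (1 - θ) * (K : ℝ) ^ (-(1 - θ)) := by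
    have h7 : ((N / K : ℕ) : ℝ) ≤ (N : ℝ) / K := Nat.cast_div_le
    refine (Real.rpow_le_rpow (Nat.cast_nonneg _) h7 h2.le).trans (le_of_eq ?_)
    rw [Real.div_rpow hN0.le hK0.le, Real.rpow_neg hK0.le]
    rfl
  calc c0 * (N : ℝ) ^ θ * ∑ d ∈ Finset.Icc 1 (N / K), (d : ℝ) ^ (-θ)
      ≤ c0 * (N : ℝ) ^ θ * (((N : ℝ) ^ (1 - θ) * (K : ℝ) ^ (-(1 - θ))) / (1 - θ)) := by
        apply mul_le_mul_of_nonneg_left _ (by positivity)
        exact h9.trans (div_le_div_of_nonneg_right h10 h2.le)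
    _ = c0 / (1 - θ) * (K : ℝ) ^ (-(1 - θ)) * ((N : ℝ) ^ θ * (N : ℝ) ^ (1 - θ)) := by ring
    _ = c0 / (1 - θ) * (K : ℝ) ^ (-(1 - θ)) * N := by
        rw [← Real.rpow_add hN0, show θ + (1 - θ) = 1 by ring, Real.rpow_one]

lemma pr_zero (u : ℝ) : pr u 0 = -(u / 2) := by
  unfold pr
  have : (fun v : ℝ => ps (v * 0)) = fun _ => (-(1 / 2) : ℝ) := by
    funext v
    unfold ps
    rw [mul_zero, Int.fract_zero]
    ring
  rw [this, intervalIntegral.integral_const, sub_zero, smul_eq_mul]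
  ring

lemma g_zero_lim (c0 θ : ℝ) (h1 : θ < 1) (hM : ∀ k : ℕ, 1 ≤ k → |Mt k| ≤ c0 * (k : ℝ) ^ θ) :
    Tendsto (fun K : ℕ => g K (bK K) 0) atTop (𝓝 0) := by
  rw [← tendsto_add_atTop_iff_nat 1]
  have e : ∀ n : ℕ, g (n + 1) (bK (n + 1)) 0 =
      1 / 2 * (∑ m ∈ Finset.Icc 1 n, Pool.Agent.Q224.FA.mu m / m) - Mt n / ((n + 1 : ℕ) : ℝ) / 2 := by
    intro n
    unfold g
    rw [Finset.sum_Icc_succ_top (by omega)]
    have h2 : bK (n + 1) (n + 1) = Mt n := by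
      unfold bK
      rw [if_neg (lt_irrefl _)]
      rfl
    rw [h2, pr_zero, Finset.mul_sum]
    have h3 : ∑ m ∈ Finset.Icc 1 n, bK (n + 1) m * pr (1 / (m : ℝ)) 0 =
        ∑ m ∈ Finset.Icc 1 n, 1 / 2 * (Pool.Agent.Q224.FA.mu m / m) := by
      apply Finset.sum_congr rfl
      intro m hm
      rw [Finset.mem_Icc] at hm
      unfold bK
      rw [if_pos (by omega), pr_zero]
      unfold Pool.Agent.Q224.FA.mu
      ring
    rw [h3]
    ring
  have h4 : Tendsto (fun n : ℕ => Mt n / ((n + 1 : ℕ) : ℝ)) atTop (𝓝 0) := by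
    have h5 : Tendsto (fun n : ℕ => c0 * ((n : ℝ) ^ (-(1 - θ)))) atTop (𝓝 (c0 * 0)) :=
      ((tendsto_rpow_neg_atTop (by linarith : 0 < 1 - θ)).comp tendsto_natCast_atTop_atTop).const_mul c0
    rw [mul_zero] at h5
    apply squeeze_zero_norm' _ h5
    filter_upwards [eventually_ge_atTop 1] with n hn
    have hn0 : (0 : ℝ) < n := by exact_mod_cast hn
    have h6 := hM n hn
    rw [Real.norm_eq_abs, abs_div, abs_of_pos (by positivity : (0 : ℝ) < ((n + 1 : ℕ) : ℝ))]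
    rw [div_le_iff₀ (by positivity)]
    have hc0 : 0 ≤ c0 * (n : ℝ) ^ θ := (abs_nonneg _).trans h6
    have h7 : (n : ℝ) ^ (-(1 - θ)) * n = (n : ℝ) ^ θ := by
      have : (n : ℝ) ^ (-(1 - θ)) * (n : ℝ) ^ (1 : ℝ) = (n : ℝ) ^ θ := by
        rw [← Real.rpow_add hn0]
        congr 1
        ring
      rwa [Real.rpow_one] at this
    have hc1 : 0 ≤ c0 * (n : ℝ) ^ (-(1 - θ)) := by
      have : 0 ≤ c0 := by
        have h8 := (abs_nonneg _).trans (hM 1 le_rfl)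
        simpa using h8
      positivity
    calc |Mt n| ≤ c0 * (n : ℝ) ^ θ := h6
      _ = c0 * (n : ℝ) ^ (-(1 - θ)) * n := by rw [mul_assoc, h7]
      _ ≤ c0 * (n : ℝ) ^ (-(1 - θ)) * ((n + 1 : ℕ) : ℝ) := by
          apply mul_le_mul_of_nonneg_left _ hc1
          push_cast
          linarith
  have h5 := (Pool.Agent.Q224.FA.mu_div_tendsto.const_mul (1 / 2 : ℝ)).sub (h4.div_const 2)
  rw [mul_zero, zero_div, sub_zero] at h5
  exact h5.congr fun n => (e n).symm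

lemma g_lim (c0 θ : ℝ) (h1 : θ < 1) (hM : ∀ k : ℕ, 1 ≤ k → |Mt k| ≤ c0 * (k : ℝ) ^ θ) (x : ℝ) :
    Tendsto (fun K : ℕ => g K (bK K) x) atTop (𝓝 (Fo x)) := by
  rcases lt_trichotomy 0 x with h | h | h
  · rw [Fo_pos h]
    exact Pool.Agent.Q224.FA.t_PF.1 c0 θ h1 hM x h
  · rw [← h]
    have : Fo 0 = 0 := by
      unfold Fo
      simp
    rw [this]
    exact g_zero_lim c0 θ h1 hM
  · have h2 := (Pool.Agent.Q224.FA.t_PF.1 c0 θ h1 hM (-x) (by linarith)).neg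
    have h3 : Fo x = -F (-x) := by
      unfold Fo
      rw [if_neg (by linarith), if_pos h]
    rw [h3]
    refine h2.congr fun K => ?_
    rw [Pool.Agent.Q224.FA.t_PF.2 K (bK K) x h.ne, neg_neg]

lemma G_lim (q a : ℕ) (hq : 1 ≤ q) (hco : a.Coprime q) (K : ℕ) (b : ℕ → ℝ) (x : ℝ) :
    Tendsto (fun N : ℕ => G K b N ((a : ℝ) / q + x / (q * N)) / N) atTop (𝓝 (1 / q * g K b x)) := by
  have hco' : IsCoprime (a : ℤ) (q : ℤ) := Nat.isCoprime_iff_coprime.2 hco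
  have e1 : ∀ N : ℕ, G K b N ((a : ℝ) / q + x / (q * N)) / N =
      ∑ m ∈ Finset.Icc 1 K, b m * (S (N / m) ((a : ℝ) / q + x / (q * N)) / N) := by
    intro N
    unfold G
    rw [Finset.sum_div]
    apply Finset.sum_congr rfl
    intro m _
    ring
  have e2 : 1 / q * g K b x = ∑ m ∈ Finset.Icc 1 K, b m * (1 / q * pr (1 / (m : ℝ)) x) := by
    unfold g
    rw [Finset.mul_sum]
    apply Finset.sum_congr rfl
    intro m _
    ring
  rw [e2]
  simp only [e1]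
  apply tendsto_finsetSum
  intro m hm
  rw [Finset.mem_Icc] at hm
  have := Pool.Agent.Q65.FA.t_MA q (a : ℤ) m x hq hco' hm.1
  rw [Int.cast_natCast] at this
  exact this.const_mul (b m)

lemma pointwise (c0 θ : ℝ) (h0 : 0 ≤ θ) (h1 : θ < 1) (hM : ∀ k : ℕ, 1 ≤ k → |Mt k| ≤ c0 * (k : ℝ) ^ θ)
    (q a : ℕ) (hq : 1 ≤ q) (hco : a.Coprime q) (x : ℝ)
    (ht : ∀ᶠ N : ℕ in atTop, 0 ≤ (a : ℝ) / q + x / (q * N) ∧ (a : ℝ) / q + x / (q * N) ≤ 1) :
    Tendsto (fun N : ℕ => E N ((a : ℝ) / q + x / (q * N)) / N) atTop (𝓝 (Fo x / q)) := by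
  have h2 : 0 < 1 - θ := by linarith
  have hq0 : (0 : ℝ) < q := by exact_mod_cast hq
  rw [Metric.tendsto_nhds]
  intro ε hε
  -- choose `K`
  have hK1 : ∀ᶠ K : ℕ in atTop, |g K (bK K) x - Fo x| < ε / 4 := by
    have := Metric.tendsto_nhds.1 (g_lim c0 θ h1 hM x) (ε / 4) (by positivity)
    simpa [Real.dist_eq] using this
  have hK2 : ∀ᶠ K : ℕ in atTop, c0 / (1 - θ) * (K : ℝ) ^ (-(1 - θ)) < ε / 4 := by
    have h5 : Tendsto (fun n : ℕ => c0 / (1 - θ) * ((n : ℝ) ^ (-(1 - θ)))) atTop (𝓝 (c0 / (1 - θ) * 0)) :=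
      ((tendsto_rpow_neg_atTop h2).comp tendsto_natCast_atTop_atTop).const_mul _
    rw [mul_zero] at h5
    exact h5.eventually (gt_mem_nhds (by positivity))
  obtain ⟨K, ⟨hK1, hK2⟩, hK⟩ := ((hK1.and hK2).and (eventually_ge_atTop 1)).exists
  have hG : ∀ᶠ N : ℕ in atTop, |G K (bK K) N ((a : ℝ) / q + x / (q * N)) / N - 1 / q * g K (bK K) x| < ε / 4 := by
    have := Metric.tendsto_nhds.1 (G_lim q a hq hco K (bK K) x) (ε / 4) (by positivity)
    simpa [Real.dist_eq] using this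
  have hN4 : ∀ᶠ N : ℕ in atTop, (4 / ε : ℝ) ≤ (N : ℝ) := tendsto_natCast_atTop_atTop.eventually_ge_atTop _
  filter_upwards [ht, hG, hN4, eventually_ge_atTop 1] with N ht hG hN4 hN
  have hN0 : (0 : ℝ) < N := by exact_mod_cast hN
  set t : ℝ := (a : ℝ) / q + x / (q * N) with htdef
  have hE := Pool.Agent.Q277.FA.t_ID N K hN hK t ht.1 ht.2
  set R : ℝ := ∑ d ∈ Finset.Icc 1 (N / K), Mt (N / d) * ps ((d : ℝ) * t) with hR
  have hRb : |R| ≤ c0 / (1 - θ) * (K : ℝ) ^ (-(1 - θ)) * N := R_bound c0 θ h0 h1 hM N K hN hK t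
  have hRN : |R / N| ≤ ε / 4 := by
    rw [abs_div, abs_of_pos hN0, div_le_iff₀ hN0]
    exact hRb.trans (mul_le_mul_of_nonneg_right hK2.le hN0.le)
  have hhalf : |(1 / 2 : ℝ) / N| ≤ ε / 8 := by
    rw [abs_of_pos (by positivity), div_le_iff₀ hN0]
    have : ε / 8 * (4 / ε) ≤ ε / 8 * N := mul_le_mul_of_nonneg_left hN4 (by positivity)
    have h6 : ε / 8 * (4 / ε) = 1 / 2 := by field_simp; norm_num
    linarith
  have hgF : |1 / q * g K (bK K) x - Fo x / q| ≤ ε / 4 := by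
    rw [show 1 / q * g K (bK K) x - Fo x / q = (g K (bK K) x - Fo x) / q by ring, abs_div, abs_of_pos hq0,
      div_le_iff₀ hq0]
    have h7 : (1 : ℝ) ≤ q := by exact_mod_cast hq
    nlinarith [abs_nonneg (g K (bK K) x - Fo x)]
  rw [Real.dist_eq]
  have hfin : E N t / N - Fo x / q = (G K (bK K) N t / N - 1 / q * g K (bK K) x) + (1 / q * g K (bK K) x - Fo x / q) -
      R / N - (1 / 2) / N := by
    rw [hE]
    ring
  rw [hfin]
  have t1 := abs_lt.1 hG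
  have t2 := abs_le.1 hgF
  have t3 := abs_le.1 hRN
  have t4 := abs_le.1 hhalf
  rw [abs_lt]
  constructor <;> linarith [t1.1, t1.2, t2.1, t2.2, t3.1, t3.2, t4.1, t4.2]

/-- one sided uniform convergence from pointwise convergence -/
lemma uniform_on (q a : ℕ) (hq : 1 ≤ q) (α β X : ℝ) (hα : -X ≤ α) (hβ : β ≤ X) (hX : 0 < X)
    (hl : ∀ x, α ≤ x → x ≤ β → Tendsto (fun N : ℕ => E N ((a : ℝ) / q + x / (q * N)) / N) atTop (𝓝 (Fo x / q)))
    (ε : ℝ) (hε : 0 < ε) : ∀ᶠ N : ℕ in atTop, ∀ x, α ≤ x → x ≤ β →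
      |E N ((a : ℝ) / q + x / (q * N)) / N - Fo x / q| ≤ ε := by
  have hq0 : (0 : ℝ) < q := by exact_mod_cast hq
  let Ph : ℕ → ℝ := fun N => ∑ n ∈ Finset.Icc 1 N, (n.totient : ℝ)
  have hPh : Tendsto (fun N : ℕ => Ph N / (N : ℝ) ^ 2) atTop (𝓝 (3 / Real.pi ^ 2)) :=
    Pool.Agent.Q124.FA.totient_lim
  let f : ℕ → ℝ → ℝ := fun N x => ((cnt N ((a : ℝ) / q + x / (q * N)) : ℝ) - Ph N * ((a : ℝ) / q)) / N
  let F0 : ℝ → ℝ := fun x => Fo x / q + 3 / Real.pi ^ 2 * (x / q)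
  have hf : ∀ N : ℕ, 1 ≤ N → ∀ x, f N x = E N ((a : ℝ) / q + x / (q * N)) / N + Ph N / (N : ℝ) ^ 2 * (x / q) := by
    intro N hN x
    have hN0 : (0 : ℝ) < N := by exact_mod_cast hN
    show ((cnt N ((a : ℝ) / q + x / (q * N)) : ℝ) - Ph N * ((a : ℝ) / q)) / N = _
    unfold E
    show _ = ((cnt N ((a : ℝ) / q + x / (q * N)) : ℝ) - Ph N * ((a : ℝ) / q + x / (q * N))) / N + _
    field_simp
    ring
  have hm : ∀ N, Monotone (f N) := by
    intro N x y hxy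
    show (_ - _) / (N : ℝ) ≤ (_ - _) / (N : ℝ)
    apply div_le_div_of_nonneg_right _ (Nat.cast_nonneg N)
    apply sub_le_sub_right
    apply cnt_mono N
    have : x / ((q : ℝ) * N) ≤ y / ((q : ℝ) * N) := div_le_div_of_nonneg_right hxy (by positivity)
    linarith
  have hc : Continuous F0 :=
    (Fo_cont.div_const _).add (continuous_const.mul (continuous_id.div_const _))
  have hl' : ∀ x, α ≤ x → x ≤ β → Tendsto (fun N => f N x) atTop (𝓝 (F0 x)) := by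
    intro x h1 h2
    have h3 := (hl x h1 h2).add (hPh.mul_const (x / q))
    refine h3.congr' ?_
    filter_upwards [eventually_ge_atTop 1] with N hN
    exact (hf N hN x).symm
  have h1 := polya f F0 α β hm hc hl' (ε / 2) (half_pos hε)
  have h2 : ∀ᶠ N : ℕ in atTop, |Ph N / (N : ℝ) ^ 2 - 3 / Real.pi ^ 2| < ε / (2 * X) := by
    have := Metric.tendsto_nhds.1 hPh (ε / (2 * X)) (by positivity)
    simpa [Real.dist_eq] using this
  filter_upwards [h1, h2, eventually_ge_atTop 1] with N h1 h2 hN x hx1 hx2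
  have h3 := h1 x hx1 hx2
  rw [hf N hN x] at h3
  have h4 : |(Ph N / (N : ℝ) ^ 2 - 3 / Real.pi ^ 2) * (x / q)| ≤ ε / 2 := by
    rw [abs_mul]
    have h5 : |x / q| ≤ X := by
      rw [abs_div, abs_of_pos hq0, div_le_iff₀ hq0]
      have h6 : |x| ≤ X := abs_le.2 ⟨by linarith, by linarith⟩
      have h7 : (1 : ℝ) ≤ q := by exact_mod_cast hq
      nlinarith
    calc |Ph N / (N : ℝ) ^ 2 - 3 / Real.pi ^ 2| * |x / q| ≤ ε / (2 * X) * X :=
          mul_le_mul h2.le h5 (abs_nonneg _) (by positivity)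
      _ = ε / 2 := by field_simp
  have h5 : E N ((a : ℝ) / q + x / (q * N)) / N - Fo x / q =
      (E N ((a : ℝ) / q + x / (q * N)) / N + Ph N / (N : ℝ) ^ 2 * (x / q) - F0 x) -
      (Ph N / (N : ℝ) ^ 2 - 3 / Real.pi ^ 2) * (x / q) := by
    show _ = (_ - (Fo x / q + 3 / Real.pi ^ 2 * (x / q))) - _
    ring
  rw [h5]
  have t1 := abs_le.1 h3
  have t2 := abs_le.1 h4
  rw [abs_le]
  constructor <;> linarith [t1.1, t1.2, t2.1, t2.2]

lemma scaled_small (q : ℕ) (hq : 1 ≤ q) (x δ : ℝ) (hδ : 0 < δ) :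
    ∀ᶠ N : ℕ in atTop, |x / ((q : ℝ) * N)| ≤ δ := by
  have hq0 : (1 : ℝ) ≤ q := by exact_mod_cast hq
  have hN4 : ∀ᶠ N : ℕ in atTop, (|x| / δ : ℝ) ≤ (N : ℝ) := tendsto_natCast_atTop_atTop.eventually_ge_atTop _
  filter_upwards [hN4, eventually_ge_atTop 1] with N hN4 hN
  have hN0 : (0 : ℝ) < N := by exact_mod_cast hN
  rw [div_le_iff₀ hδ] at hN4
  rw [abs_div, abs_of_pos (by positivity : (0 : ℝ) < (q : ℝ) * N), div_le_iff₀ (by positivity)]
  nlinarith [mul_pos hδ hN0]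

theorem t_SU : J_SU := by
  intro c0 θ hθ hM q a hq haq hco X ε hX hε
  have hq0 : (0 : ℝ) < q := by exact_mod_cast hq
  -- we may assume `0 ≤ θ`
  have hc0 : 0 ≤ c0 := by
    have h8 := (abs_nonneg _).trans (hM 1 le_rfl)
    simpa using h8
  have hM' : ∀ k : ℕ, 1 ≤ k → |Mt k| ≤ c0 * (k : ℝ) ^ (max θ 0) := by
    intro k hk
    refine (hM k hk).trans (mul_le_mul_of_nonneg_left ?_ hc0)
    exact Real.rpow_le_rpow_of_exponent_le (by exact_mod_cast hk) (le_max_left _ _)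
  have hθ' : max θ 0 < 1 := max_lt hθ one_pos
  -- the right side
  have hR : a < q → ∀ᶠ N : ℕ in atTop, ∀ x, 0 ≤ x → x ≤ X →
      |E N ((a : ℝ) / q + x / (q * N)) / N - Fo x / q| ≤ ε := by
    intro haq'
    apply uniform_on q a hq 0 X X (by linarith) le_rfl hX _ ε hε
    intro x hx0 _
    apply pointwise c0 (max θ 0) (le_max_right _ _) hθ' hM' q a hq hco x
    have hd : (0 : ℝ) < 1 - (a : ℝ) / q := by
      rw [sub_pos, div_lt_one hq0]
      exact_mod_cast haq'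
    filter_upwards [scaled_small q hq x _ hd] with N hN
    have h1 : 0 ≤ x / ((q : ℝ) * N) := by positivity
    have h2 := (abs_le.1 hN).2
    have h3 : (0 : ℝ) ≤ (a : ℝ) / q := by positivity
    constructor <;> linarith
  have hL : 1 ≤ a → ∀ᶠ N : ℕ in atTop, ∀ x, -X ≤ x → x ≤ 0 →
      |E N ((a : ℝ) / q + x / (q * N)) / N - Fo x / q| ≤ ε := by
    intro ha1
    apply uniform_on q a hq (-X) 0 X le_rfl hX.le hX _ ε hε
    intro x _ hx0
    apply pointwise c0 (max θ 0) (le_max_right _ _) hθ' hM' q a hq hco x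
    have hd : (0 : ℝ) < (a : ℝ) / q := by
      have : (0 : ℝ) < a := by exact_mod_cast ha1
      positivity
    filter_upwards [scaled_small q hq x _ hd] with N hN
    have h1 : x / ((q : ℝ) * N) ≤ 0 := div_nonpos_of_nonpos_of_nonneg hx0 (by positivity)
    have h2 := (abs_le.1 hN).1
    have h3 : (a : ℝ) / q ≤ 1 := by
      rw [div_le_one hq0]
      exact_mod_cast haq
    constructor <;> linarith
  by_cases ha : a < q
  · by_cases ha1 : 1 ≤ a
    · filter_upwards [hR ha, hL ha1] with N h1 h2 x hx _ _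
      rcases le_total 0 x with h | h
      · exact h1 x h ((le_abs_self x).trans hx)
      · exact h2 x (abs_le.1 hx).1 h
    · have ha0 : a = 0 := by omega
      filter_upwards [hR ha, eventually_ge_atTop 1] with N h1 hN x hx h3 _
      have hN0 : (0 : ℝ) < N := by exact_mod_cast hN
      apply h1 x _ ((le_abs_self x).trans hx)
      rw [ha0] at h3
      push_cast at h3
      rw [zero_div, zero_add] at h3
      by_contra hcon
      exact absurd h3 (not_le.2 (div_neg_of_neg_of_pos (not_le.1 hcon) (by positivity)))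
  · have ha0 : a = q := by omega
    filter_upwards [hL (by omega), eventually_ge_atTop 1] with N h1 hN x hx _ h3
    have hN0 : (0 : ℝ) < N := by exact_mod_cast hN
    apply h1 x (abs_le.1 hx).1
    rw [ha0, div_self hq0.ne'] at h3
    by_contra hcon
    have : 0 < x / ((q : ℝ) * N) := div_pos (not_le.1 hcon) (by positivity)
    linarith

end Pool.Agent.Q214.FA
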